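import Pool.Agent.N783.PF.Final
import Pool.Agent.N844.PL.Gen
import Pool.Agent.N844.QR.Ex
import Pool.Agent.N844.WA.Non

/-!
# Weak approximation for a positive proportion of the intersections of two quadrics with linear subspaces
# everywhere locally, over every number field

Let `F` be ANY number field, `g ≥ 2`, and let `X ⊂ P^(2g+1)` be a smooth complete intersection of two quadrics
over `F` such that a member of the pencil of the quadrics which contain `X` is defined over `F` and singular.
Up to a change of coordinates `X` is the base locus of a pencil `x A - z B` of symmetric matrices over `F` with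

  `(-1)^(g+1) det (x A - z B) = m² z F(x, z)`, `F(x, 1) = f`, `m ≠ 0`,

where `f` is monic of degree `2 g + 1` over the ring of integers, with trace zero. Order ALL these `f` by
height. Theorem: for a positive proportion of the `f` the following holds for ALL the `X` over `F` with
discriminant `m² z F`. If `X` contains a linear subspace of dimension `g - 1` over all completions of `F`,
then `X` contains a line `ℓ` defined over `F`, spanned by `e` and `e'`, and weak approximation holds for the
open subset `U` of `X` where the bilinear forms of `A` and `B` have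

  `D(y) = A(e, y) B(e', y) - A(e', y) B(e, y) ≠ 0`:

for every finite set of places `v` of `F` (given by absolute values) and all points `y_v` of `U` over the
completions `F_v` there are points of `U` over `F` which are arbitrarily close to all `y_v`. (We use
coordinates in the affine cones: the coordinates of the points are arbitrarily close.) `U` is not empty, it has
a point over `F` (this is part of the theorem), and for a smooth `X` the points of `U` over `F_v` are dense in the points of `X` over `F_v`
(implicit function theorem; this is not formalized), so `X` satisfies weak approximation.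

Proof. The existence of a linear subspace of dimension `g - 1` over `F` is the local-global principle of
`MP_03ef3d_ag.PlanesOnTwoQuadrics`; see there for the proof (from planes over the completions to the 2-Selmer
group of the Jacobian of `y² = f(x)`, which is zero for a positive proportion of the `f` by project PF). As
`g ≥ 2` it contains a line. Weak approximation is proved by the projection from the line: for `q` in `F^(2g+2)`
with `D(q) ≠ 0` the plane through the line and `q` contains one more point `q + s(q) e + t(q) e'` of `X`, where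
`s`, `t` are rational functions with denominator `2 D(q)` (`N844/WA`). This point is `q` if `q` is on `X`, so
it is near to `y_v` if `q` is near to `y_v`, and `F` is dense in the product of the `F_v`.

The theorem on the 2-Selmer groups over number fields is joint work: project PF: helper783, with parts by
helpers 31, 42, 61, 73, 75, 78, 99, 134, 169, 170, 189, 195, 225, 255, 286, 331, 352, 364, 374, 426, 438,
456, 459, 482, 490, 545, 547, 591, 614, 645, 667, 707, 710, 747, 771, 823, 849, 862, 935, 951, 999; from
project PQ (helper783) parts by 2, 262, 271, 348, 394, 456, 457, 488, 498, 507, 530, 644, 747, 755, 835, 850,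
878, 891, 951; from PP, PJ, JM, QM parts by 187, 195, 352, 434, 507, 630, 704, 765, 769, 862, 874. The
theory of the planes (`N844/PL`), of the pencils (`N844/QR`) and weak approximation (`N844/WA`): helper844.
-/

set_option autoImplicit false
set_option linter.all false

open Finset Matrix Polynomial IsDedekindDomain NumberField

namespace Pool.Agent.Results.MP_9fb703_nt.PlanesEverywhereLocally

/-! ### Pencils of quadrics and linear subspaces -/

section pencils

variable {K : Type} [Field K]

/-- the homogeneous form `F(x, z)` of degree `2 g + 1` of `f` -/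
def form (g : ℕ) (f : K[X]) (x z : K) : K :=
  ∑ i ∈ range (2 * g + 2), f.coeff i * x ^ i * z ^ (2 * g + 1 - i)

/-- the matrices of size `2 g + 2` -/
abbrev Mat (g : ℕ) (K : Type) : Type := Matrix (Fin (2 * g + 2)) (Fin (2 * g + 2)) K

/-- the quadratic form of a matrix -/
def qf {N : ℕ} (A : Matrix (Fin N) (Fin N) K) (y : Fin N → K) : K := y ⬝ᵥ (A *ᵥ y)

/-- the pencils with discriminant `m ^ 2 z F(x, z)` -/
structure IsPencil (g : ℕ) (f : K[X]) (m : K) (A B : Mat g K) : Prop where
  symA : A.IsSymm
  symB : B.IsSymm
  disc : ∀ x z : K, (-1) ^ (g + 1) * (x • A - z • B).det = m ^ 2 * (z * form g f x z)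

/-- there is a vector space `W` of dimension `d` over `K` on which both quadratic forms are zero -/
def HasSpace {N : ℕ} (d : ℕ) (A B : Matrix (Fin N) (Fin N) K) : Prop :=
  ∃ W : Submodule K (Fin N → K), Module.finrank K W = d ∧ ∀ y ∈ W, qf A y = 0 ∧ qf B y = 0

/-- The base locus `X` of the pencil contains a linear subspace of dimension `g - 1` defined over the field
`E`, for a pencil over `K` and a map `φ` from `K` to `E`: there is a vector space of dimension `g` over `E`
on which both quadratic forms are zero. -/
def HasPlane {g : ℕ} {E : Type} [Field E] (φ : K →+* E) (A B : Mat g K) : Prop :=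
  HasSpace g (A.map φ) (B.map φ)

/-- the bilinear form of a matrix -/
def bilin {N : ℕ} (A : Matrix (Fin N) (Fin N) K) (x y : Fin N → K) : K := x ⬝ᵥ (A *ᵥ y)

/-- `D(y) = A(e, y) B(e', y) - A(e', y) B(e, y)` -/
def det2 {N : ℕ} (A B : Matrix (Fin N) (Fin N) K) (e e' y : Fin N → K) : K :=
  bilin A e y * bilin B e' y - bilin A e' y * bilin B e y

/-- `e` and `e'` span a line which is contained in the base locus `X` -/
def IsLine {N : ℕ} (A B : Matrix (Fin N) (Fin N) K) (e e' : Fin N → K) : Prop :=
  LinearIndependent K ![e, e'] ∧ ∀ s t : K, qf A (s • e + t • e') = 0 ∧ qf B (s • e + t • e') = 0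

/-- `y` is a point of `U` over the field `E` (in coordinates of the affine cone): both forms are zero at `y`
and `D(y) ≠ 0` -/
def OnU {N : ℕ} {E : Type} [Field E] (φ : K →+* E) (A B : Matrix (Fin N) (Fin N) K)
    (e e' : Fin N → K) (y : Fin N → E) : Prop :=
  qf (A.map φ) y = 0 ∧ qf (B.map φ) y = 0 ∧
    det2 (A.map φ) (B.map φ) (fun j => φ (e j)) (fun j => φ (e' j)) y ≠ 0

/-- `y` is a point of `U` over the completion of `K` at the absolute value `v` -/
def OnUAt {N : ℕ} (v : AbsoluteValue K ℝ) (A B : Matrix (Fin N) (Fin N) K) (e e' : Fin N → K)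
    (y : Fin N → v.Completion) : Prop := OnU (algebraMap K v.Completion) A B e e' y

/-- the distance of the coordinates of `z` and `y` in the completion is less than `ε` -/
def Near {N : ℕ} (v : AbsoluteValue K ℝ) (ε : ℝ) (z : Fin N → K) (y : Fin N → v.Completion) : Prop :=
  ∀ j, ‖algebraMap K v.Completion (z j) - y j‖ < ε

/-- Weak approximation for `U`: for every finite set of places of `K`, given by nontrivial absolute values
which are pairwise not equivalent, and all points `y_v` of `U` over the completions there are points of `U`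
over `K` which are arbitrarily close to all `y_v`. -/
def WeakApproximation {N : ℕ} (A B : Matrix (Fin N) (Fin N) K) (e e' : Fin N → K) : Prop :=
  ∀ (n : ℕ) (v : Fin (n + 1) → AbsoluteValue K ℝ), (∀ i, (v i).IsNontrivial) →
    (Pairwise fun i j => ¬(v i).IsEquiv (v j)) →
    ∀ y : ∀ i, Fin N → (v i).Completion, (∀ i, OnUAt (v i) A B e e' (y i)) →
      ∀ ε > 0, ∃ z : Fin N → K, OnU (RingHom.id K) A B e e' z ∧ ∀ i, Near (v i) ε z (y i)

end pencils

section numberfield

variable (F : Type) [Field F] [NumberField F] (g B : ℕ)

/-- For all the pencils over `F` with discriminant `m ^ 2 z F(x, z)`, `m ≠ 0`: if the base locus contains a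
linear subspace of dimension `g - 1` over the completions of `F` at all finite places and over the real
numbers, for all embeddings of `F` in the real numbers, then it contains a linear subspace of dimension
`g - 1` over `F` and a line over `F` such that `U` has a point over `F` and weak approximation holds for
`U`. -/
def LocalGlobal (f : F[X]) : Prop :=
  ∀ (m : F) (A B : Mat g F), m ≠ 0 → IsPencil g f m A B →
    (∀ v : HeightOneSpectrum (𝓞 F), HasPlane (algebraMap F (v.adicCompletion F)) A B) →
    (∀ ρ : F →+* ℝ, HasPlane ρ A B) →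
    HasPlane (RingHom.id F) A B ∧ ∃ e e' : Fin (2 * g + 2) → F, IsLine A B e e' ∧
      (∃ z : Fin (2 * g + 2) → F, OnU (RingHom.id F) A B e e' z) ∧ WeakApproximation A B e e'

/-- `f` is monic of degree `2 g + 1` without term of degree `2 g`, and all the conjugates of the coefficient
of `x ^ j` are at most `B ^ (2 g + 1 - j)` in absolute value. -/
structure IsPoly (f : (𝓞 F)[X]) : Prop where
  monic : f.Monic
  degree : f.natDegree = 2 * g + 1
  trace : f.coeff (2 * g) = 0
  height : ∀ j ≤ 2 * g, ∀ σ : F →+* ℂ, ‖σ (f.coeff j : F)‖ ≤ (B : ℝ) ^ (2 * g + 1 - j)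

/-- all the polynomials `f` of height at most `B` -/
def Polys : Set (𝓞 F)[X] := {f | IsPoly F g B f}

/-- there is no prime `P` such that `P ^ (2 (2 g + 1 - j))` divides the coefficient of `x ^ j` for all
`j ≤ 2 g` -/
def Minimal (f : (𝓞 F)[X]) : Prop :=
  ∀ P : Ideal (𝓞 F), P.IsPrime → P ≠ ⊥ → ¬ ∀ j ≤ 2 * g, f.coeff j ∈ P ^ (2 * (2 * g + 1 - j))

/-- the polynomial `f` over `F` -/
noncomputable def polyF (f : (𝓞 F)[X]) : F[X] := f.map (algebraMap (𝓞 F) F)

/-- the polynomials `f` of height at most `B` which are minimal and irreducible over `F` and for which the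
local-global principle holds -/
def Good : Set (𝓞 F)[X] :=
  {f ∈ Polys F g B | Minimal F g f ∧ Irreducible (polyF F f) ∧ LocalGlobal F g (polyF F f)}

/-- a positive proportion of all the polynomials ordered by height is good -/
def PositiveProportion : Prop :=
  ∃ c : ℝ, 0 < c ∧ ∃ B₀ : ℕ, ∀ B ≥ B₀, (Polys F g B).Finite ∧ 0 < (Polys F g B).ncard ∧
    c * ((Polys F g B).ncard : ℝ) ≤ ((Good F g B).ncard : ℝ)

end numberfield

section proof

variable (F : Type) [Field F] [NumberField F] {g : ℕ}

/-- weak approximation from the projection from a line -/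
theorem weak {K : Type} [Field K] [CharZero K] {N : ℕ} {A B : Matrix (Fin N) (Fin N) K}
    (hA : A.IsSymm) (hB : B.IsSymm) (W : Submodule K (Fin N → K))
    (hWA : ∀ y ∈ W, qf A y = 0) (hWB : ∀ y ∈ W, qf B y = 0) {e e' : Fin N → K} (he : e ∈ W)
    (he' : e' ∈ W) : WeakApproximation A B e e' := by
  intro n v hv1 hv2 y hy ε hε
  have h2 : (2 : K) ≠ 0 := two_ne_zero
  obtain ⟨z, h3, h4, h5, h6⟩ := Pool.Agent.N844.WA.approx (fun i => (v i).Completion)
    (fun i => algebraMap K (v i).Completion) (Pool.Agent.N844.WA.dense v hv1 hv2) h2 hA hB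
    (hWA e he) (hWA e' he') (Pool.Agent.N844.WA.polz h2 hA W hWA he he')
    (hWB e he) (hWB e' he') (Pool.Agent.N844.WA.polz h2 hB W hWB he he') ⟨0⟩ y
    (fun i => (hy i).1) (fun i => (hy i).2.1) (fun i => (hy i).2.2)
    (fun i => Metric.ball (y i) ε) (fun i => Metric.ball_mem_nhds _ hε)
  refine ⟨z, ⟨?_, ?_, ?_⟩, fun i j => ?_⟩
  · rw [show A.map (RingHom.id K) = A from Matrix.map_id A]
    exact h3
  · rw [show B.map (RingHom.id K) = B from Matrix.map_id B]
    exact h4
  · rw [show A.map (RingHom.id K) = A from Matrix.map_id A,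
      show B.map (RingHom.id K) = B from Matrix.map_id B]
    exact h5
  · have h7 := h6 i
    rw [Metric.mem_ball, dist_pi_lt_iff hε] at h7
    have h8 := h7 j
    rwa [dist_eq_norm] at h8

theorem ht_iff (B : ℕ) (f : (𝓞 F)[X]) : IsPoly F g B f ↔ Pool.Agent.N783.PF.Ht g B f :=
  ⟨fun h => ⟨h.monic, h.degree, h.trace, h.height⟩, fun h => ⟨h.mon, h.deg, h.tr, h.ht⟩⟩

theorem plane_iff {K : Type} [Field K] (A B : Mat g K) :
    HasPlane (RingHom.id K) A B ↔ Pool.Agent.N844.PL.HasPl g A B := by
  unfold HasPlane
  rw [show A.map (RingHom.id K) = A from Matrix.map_id A,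
    show B.map (RingHom.id K) = B from Matrix.map_id B]
  exact Iff.rfl

theorem pen {K : Type} [Field K] {f : K[X]} {m : K} {A B : Mat g K} (h : IsPencil g f m A B) :
    Pool.Agent.N844.QR.IsPen g f m A B := ⟨h.symA, h.symB, h.disc⟩

/-- the local condition in terms of polynomials -/
theorem loc {K : Type} [Field K] [CharZero K] (φ : F →+* K) {f : F[X]} (hf : f.Monic)
    (hd : f.natDegree = 2 * g + 1) (hs : f.Separable) {h : F[X]} (hh : IsCoprime h f)
    (hN : IsSquare (Algebra.norm F (AdjoinRoot.mk f h))) {c : F} (hc : c ≠ 0) {P A B : Mat g F}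
    (hP : P.det ≠ 0) (hA : Pᵀ * A * P = c • Pool.Agent.N844.PL.quadA g f h)
    (hB : Pᵀ * B * P = c • Pool.Agent.N844.PL.quadB g f h) (hpl : HasPlane φ A B) :
    ∃ (l : List (K[X] × K[X])) (s : K[X]),
      (∀ p ∈ l, p.1.Monic ∧ IsCoprime p.1 (f.map φ) ∧ p.1 ∣ p.2 ^ 2 - f.map φ) ∧
      f.map φ ∣ h.map φ * (l.map fun p => (-1) ^ p.1.natDegree * p.1).prod - s ^ 2 := by
  refine Pool.Agent.N844.PL.loc_map φ hf hd hs h hh hN ?_
  refine Pool.Agent.N844.PL.pl_to (c := φ c) (P := P.map φ) ?_ ?_
    (Pool.Agent.N844.PL.map_conj φ hA) (Pool.Agent.N844.PL.map_conj φ hB) hpl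
  · rwa [Ne, map_eq_zero]
  · have e : (P.map φ).det = φ P.det := by
      rw [RingHom.map_det]
      rfl
    rw [e]
    rwa [Ne, map_eq_zero]

/-- from the explicit 2-Selmer group to the planes -/
theorem localGlobal (hg : 2 ≤ g) {f : (𝓞 F)[X]} (hf : f.Monic) (hd : f.natDegree = 2 * g + 1)
    (hi : Irreducible (polyF F f)) (hs : Pool.Agent.N783.PF.SelZero f) :
    LocalGlobal F g (polyF F f) := by
  intro m A B hm hpen hv hρ
  have hf' : (polyF F f).Monic := hf.map _
  have hd' : (polyF F f).natDegree = 2 * g + 1 := by
    unfold polyF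
    rw [hf.natDegree_map, hd]
  obtain ⟨h, c, P, hh, hN, hc, hP, hA, hB⟩ :=
    Pool.Agent.N844.PL.normal hf' hd' hi A B m hm (pen hpen)
  obtain ⟨s, hs'⟩ := hs h hh hN (fun v => by
      haveI : CharZero (v.adicCompletion F) :=
        charZero_of_injective_algebraMap (algebraMap F (v.adicCompletion F)).injective
      exact loc F (algebraMap F (v.adicCompletion F)) hf' hd' hi.separable hh hN hc hP hA hB (hv v))
    (fun ρ => loc F ρ hf' hd' hi.separable hh hN hc hP hA hB (hρ ρ))
  have hpl := Pool.Agent.N844.PL.pl_from hP hA hB
    (Pool.Agent.N844.PL.plane_of_sq hf' hd' h hh s hs')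
  refine ⟨(plane_iff A B).2 hpl, ?_⟩
  obtain ⟨W, hW, hq⟩ := hpl
  obtain ⟨e, he, e', he', hli⟩ := Pool.Agent.N844.WA.line W (by rw [hW]; omega)
  refine ⟨e, e', ⟨hli, fun s t => hq _ (W.add_mem (W.smul_mem s he) (W.smul_mem t he'))⟩, ?_,
    weak hpen.symA hpen.symB W (fun y hy => (hq y hy).1) (fun y hy => (hq y hy).2) he he'⟩
  obtain ⟨z, h3, h4, h5⟩ := Pool.Agent.N844.WA.nonempty hpen.symA hpen.symB W
    (fun y hy => (hq y hy).1) (fun y hy => (hq y hy).2) he he' hli (fun y hy hyW => by
      have h6 := (pen hpen).smooth (RingHom.id F) hf' hd' (by rwa [RingHom.id_apply])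
        (by rw [Polynomial.map_id]; exact hi.separable) (y := y) hy
      rw [show A.map (RingHom.id F) = A from Matrix.map_id A,
        show B.map (RingHom.id F) = B from Matrix.map_id B] at h6
      exact h6 (hq y hyW).1 (hq y hyW).2)
  refine ⟨z, ?_, ?_, ?_⟩
  · rw [show A.map (RingHom.id F) = A from Matrix.map_id A]
    exact h3
  · rw [show B.map (RingHom.id F) = B from Matrix.map_id B]
    exact h4
  · rw [show A.map (RingHom.id F) = A from Matrix.map_id A,
      show B.map (RingHom.id F) = B from Matrix.map_id B]
    exact h5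

end proof

/-- **Theorem.** For every `g ≥ 2` and every number field `F` there is a positive constant `c` such that for
all large `B` at least `c` times the number of all the `f` of height at most `B` are minimal, irreducible
over `F` and such that for ALL the pencils of quadrics in `P^(2g+1)` over `F` with discriminant
`m ^ 2 z F(x, z)` the following is true: if the base locus `X` contains a linear subspace of dimension
`g - 1` over all completions of `F` then it contains a linear subspace of dimension `g - 1` over `F` and a
line over `F` such that the open subset `U` of `X` has a point over `F` and satisfies weak approximation. -/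
theorem result (g : ℕ) (hg : 2 ≤ g) (F : Type) [Field F] [NumberField F] :
    PositiveProportion F g := by
  classical
  haveI : Infinite F := CharZero.infinite _
  obtain ⟨c, hc, B₀, hB₀⟩ := Pool.Agent.N783.PF.main g F (by omega)
  refine ⟨c, hc, B₀, fun B hB => ?_⟩
  obtain ⟨hHt, hle⟩ := hB₀ B hB
  have e1 : Polys F g B = {f : (𝓞 F)[X] | Pool.Agent.N783.PF.Ht g B f} :=
    Set.ext fun f => ht_iff F B f
  have hfin : (Polys F g B).Finite := by rw [e1]; exact hHt
  refine ⟨hfin, ?_, ?_⟩
  · rw [Set.ncard_pos hfin]
    refine ⟨X ^ (2 * g + 1), monic_X_pow _, natDegree_X_pow _, ?_, fun j hj σ => ?_⟩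
    · rw [coeff_X_pow, if_neg (by omega)]
    · rw [coeff_X_pow, if_neg (by omega)]
      rw [show ((0 : 𝓞 F) : F) = 0 from rfl, map_zero, norm_zero]
      positivity
  · rw [e1]
    refine hle.trans ?_
    have h3 : {f : (𝓞 F)[X] | Pool.Agent.N783.PF.Ht g B f ∧
        Irreducible (Pool.Agent.N783.PF.fF f) ∧ Pool.Agent.N783.PF.SelZero f ∧
        Pool.Agent.N783.PF.Min g f} ⊆ Good F g B := by
      rintro f ⟨h4, h5, h6, h7⟩
      exact ⟨(ht_iff F B f).2 h4, h7, h5, localGlobal F hg h4.mon h4.deg h5 h6⟩
    exact_mod_cast Set.ncard_le_ncard h3 (hfin.subset fun a ha => ha.1)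

end Pool.Agent.Results.MP_9fb703_nt.PlanesEverywhereLocally
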